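import Pool.Agent.H7.WD.Rel

set_option autoImplicit false

/-!
# MP_95ca41_lc : a counterexample to the weak diamond at a strongly inaccessible cardinal

Let `κ` be strongly inaccessible and let `F_a : 2^a → 2` (`a < κ`). We say that `f : κ → 2` codes
`W` on `S` if `F_a(f↾a) = 1` is equivalent to `a ∈ W`, for almost all `a ∈ S` (all but a
nonstationary set). `F` is a counterexample to `Φ_κ` exactly if every set has a code. We show that the
decoding is discontinuous: in every set `S` with stationary many singular points there is a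
stationary set `W` such that for every `W' ⊆ W` and every code `f` of `W'`, `F_a` is discontinuous
at `f↾a` for almost all `a ∈ W'`, even if only the codes in a fixed set `K` are allowed, and even
for many disjoint sets `S` at once. For a general `S` the coding of all subsets of `S` with `F_a`
continuous at `f↾a` for almost all `a ∈ S` is possible exactly if the nonstationary ideal restricted
to `S` has a dense family of at most `κ` sets.
-/

open Cardinal Ordinal Set Order Pool.Agent.H7.WD

universe u v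

namespace Pool.Agent.Results.MP_95ca41_lc.Discontinuity

/-- `f` codes `W` on `S` by `F`: for almost all `a ∈ S`, `F_a(f↾a) = 1` exactly if `a ∈ W` -/
def Codes {κ : Cardinal.{u}} (F : (a : κ.ord.ToType) → (Iio a → Bool) → Bool)
    (S W : Set κ.ord.ToType) (f : κ.ord.ToType → Bool) : Prop :=
  ¬ IsStationary {a | a ∈ S ∧ ¬ (F a (res f a) = true ↔ a ∈ W)}

theorem result (κ : Cardinal.{u}) (hκ : κ.IsInaccessible) :
    -- (1) continuous coding on `S` and the density of the nonstationary ideal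
    (∀ S : Set κ.ord.ToType, DenseNS S ↔
      ∃ F : (a : κ.ord.ToType) → (Iio a → Bool) → Bool, ∀ W ⊆ S, ∃ f : κ.ord.ToType → Bool,
        Codes F S W f ∧ ¬ IsStationary {a | a ∈ S ∧ ¬ RelCont univ (F a) f}) ∧
    -- (2) sets with stationary many singular points
    (IsStationary {a : κ.ord.ToType | Sing a}) ∧
    (∀ S : Set κ.ord.ToType, IsStationary {a | a ∈ S ∧ Sing a} → ¬ DenseNS S) ∧
    -- (3) the discontinuity, for arbitrary sets `K` of codes and for many sets `S j` at once
    (∀ (J : Type v) (S : J → Set κ.ord.ToType), (∀ i j, i ≠ j → Disjoint (S i) (S j)) →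
      (∀ j, ¬ DenseNS (S j)) →
      ∀ (K : Set (κ.ord.ToType → Bool)) (F : (a : κ.ord.ToType) → (Iio a → Bool) → Bool),
        ∃ W : J → Set κ.ord.ToType, (∀ j, W j ⊆ S j ∧ IsStationary (W j)) ∧
          ∀ X ⊆ ⋃ j, W j, ∀ f ∈ K, Codes F (⋃ j, S j) X f → ∀ j,
            ¬ IsStationary {a | a ∈ X ∩ S j ∧ RelCont K (F a) f}) ∧
    -- (4) the counterexamples to `Φ_κ` are the `F` by which all sets have codes
    (∀ F : (a : κ.ord.ToType) → (Iio a → Bool) → Bool,
      (∀ g : κ.ord.ToType → Bool, ∃ f : κ.ord.ToType → Bool,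
        ¬ IsStationary {a | F a (res f a) = g a}) ↔
      ∀ X : Set κ.ord.ToType, ∃ f, Codes F univ X f) ∧
    -- (5) `κ` colours
    (∀ S : Set κ.ord.ToType, IsStationary {a | a ∈ S ∧ Sing a} →
      ∀ (K : Set (κ.ord.ToType → Bool)) (F : (a : κ.ord.ToType) → (Iio a → Bool) → κ.ord.ToType),
        (∀ a ∈ S, Sing a → ∀ f ∈ K, F a (res f a) < a) →
        ∃ W ⊆ S, IsStationary W ∧ ∃ g : κ.ord.ToType → κ.ord.ToType, ∀ f ∈ K,
          IsStationary {a | a ∈ S ∧ F a (res f a) = g a} ∨
            ¬ IsStationary {a | a ∈ W ∧ RelCont K (F a) f}) := by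
  classical
  have hr := hκ.isRegular
  have h0 := hκ.aleph0_lt
  have hcof := cof_ne hr h0
  have hs : ∀ x < κ, (2 : Cardinal.{u}) ^ x < κ := fun x hx => hκ.isStrongPrelimit hx
  have h2 : ∀ S : Set κ.ord.ToType, IsStationary {a | a ∈ S ∧ Sing a} → ¬ DenseNS S :=
    fun S hS hD => not_dense_of_sing hr h0 hs hS (fun a ha => ha.2) (hD.mono fun a ha => ha.1)
  have h3 : ∀ S : Set κ.ord.ToType, ¬ DenseNS S →
      ∀ (K : Set (κ.ord.ToType → Bool)) (F : (a : κ.ord.ToType) → (Iio a → Bool) → Bool),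
        ∃ W ⊆ S, IsStationary W ∧ ∀ W' ⊆ W, ∀ f ∈ K, Codes F S W' f →
          ¬ IsStationary {a | a ∈ W' ∧ RelCont K (F a) f} := by
    intro S hD K F
    by_contra hcon
    apply hD
    refine dense_of_codes hr h0 (fun x hx => (hs x hx).le) K F fun W hWS hW => ?_
    by_contra hcon'
    refine hcon ⟨W, hWS, hW, fun W' hW' f hf hcode hst => hcon' ⟨W', hW', f, hf, hcode, hst⟩⟩
  refine ⟨fun S => ⟨fun hD => ?_, ?_⟩, stat_sing hr h0, h2, fun J S hdis hD K F => ?_, ?_,
    fun S hS K F hF => guess_or_disc hr h0 hs hS K F hF⟩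
  · obtain ⟨F, hF⟩ := not_guess_of_dense hr h0 hD
    refine ⟨F, fun W _ => ?_⟩
    unfold Guess at hF
    push Not at hF
    obtain ⟨f, hf⟩ := hF fun a => !decide (a ∈ W)
    refine ⟨f, fun h => hf (h.mono ?_), fun h => hf (h.mono ?_)⟩
    · rintro a ⟨haS, ha⟩
      refine ⟨haS, Or.inl ?_⟩
      by_cases haW : a ∈ W <;> cases hFa : F a (res f a) <;> simp_all
    · rintro a ⟨haS, ha⟩
      exact ⟨haS, Or.inr fun h => ha ((relCont_univ _ _).2 h)⟩
  · rintro ⟨F, hF⟩
    by_contra hD
    obtain ⟨W, hWS, hW, h⟩ := h3 S hD univ F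
    obtain ⟨f, hf1, hf2⟩ := hF W hWS
    have h4 := hW.mono (t := {a | a ∈ W ∧ RelCont univ (F a) f} ∪
      {a | a ∈ S ∧ ¬ RelCont univ (F a) f}) (by
        intro a ha
        by_cases hc : RelCont univ (F a) f
        · exact Or.inl ⟨ha, hc⟩
        · exact Or.inr ⟨hWS ha, hc⟩)
    rw [isStationary_union_iff hcof] at h4
    rcases h4 with h4 | h4
    · exact h W subset_rfl f trivial hf1 h4
    · exact hf2 h4
  · choose W hWS hW h using fun j => h3 (S j) (hD j) K F
    refine ⟨W, fun j => ⟨hWS j, hW j⟩, fun X hX f hfK hf j => ?_⟩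
    refine h j (X ∩ S j) ?_ f hfK fun hst => hf (hst.mono ?_)
    · rintro a ⟨haX, haS⟩
      obtain ⟨i, hi⟩ := mem_iUnion.1 (hX haX)
      by_cases hij : i = j
      · rwa [← hij]
      · exact absurd haS (Set.disjoint_left.1 (hdis i j hij) (hWS i hi))
    · rintro a ⟨haS, ha⟩
      exact ⟨mem_iUnion.2 ⟨j, haS⟩,
        fun hiff => ha (hiff.trans ⟨fun h => ⟨h, haS⟩, fun h => h.1⟩)⟩
  · intro F
    constructor
    · intro hF X
      obtain ⟨f, hf⟩ := hF fun a => !decide (a ∈ X)
      refine ⟨f, fun h => hf (h.mono ?_)⟩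
      rintro a ⟨-, ha⟩
      by_cases haX : a ∈ X <;> cases hFa : F a (res f a) <;> simp_all
    · intro hF g
      obtain ⟨f, hf⟩ := hF {a | g a = false}
      refine ⟨f, fun h => hf (h.mono ?_)⟩
      intro a ha
      refine ⟨trivial, ?_⟩
      have ha' : F a (res f a) = g a := ha
      cases hga : g a <;> simp_all

end Pool.Agent.Results.MP_95ca41_lc.Discontinuity
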